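import Mathlib

/-!
Sums of few signed powers of `2`: a number with `z` nonzero digits in the base `2 ^ (2 b)` is a sum of at most `(b + 1) z`
signed powers of `2`.
-/

set_option autoImplicit false

namespace Pool.Agent.Run7.h878.NN

/-- `x` is a sum of at most `s` signed powers of `2` -/
def Rep (x : ℤ) (s : ℕ) : Prop :=
  ∃ L : List (ℤ × ℕ), L.length ≤ s ∧ (∀ a ∈ L, a.1 = 1 ∨ a.1 = -1) ∧ (L.map fun a => a.1 * 2 ^ a.2).sum = x

theorem rep_zero : Rep 0 0 := ⟨[], le_rfl, by simp, by simp⟩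

theorem Rep.mono {x : ℤ} {s t : ℕ} (h : Rep x s) (hst : s ≤ t) : Rep x t := by
  obtain ⟨L, h1, h2, h3⟩ := h
  exact ⟨L, h1.trans hst, h2, h3⟩

theorem Rep.add {x y : ℤ} {s t : ℕ} (h : Rep x s) (h' : Rep y t) : Rep (x + y) (s + t) := by
  obtain ⟨L, h1, h2, h3⟩ := h
  obtain ⟨L', h1', h2', h3'⟩ := h'
  refine ⟨L ++ L', ?_, ?_, ?_⟩
  · rw [List.length_append]; omega
  · intro a ha
    rcases List.mem_append.1 ha with h | h
    · exact h2 a h
    · exact h2' a h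
  · rw [List.map_append, List.sum_append, h3, h3']

theorem sum_shift (L : List (ℤ × ℕ)) (a : ℕ) :
    ((L.map fun x => (x.1, x.2 + a)).map fun x => x.1 * 2 ^ x.2).sum =
      2 ^ a * (L.map fun x => x.1 * 2 ^ x.2).sum := by
  induction L with
  | nil => simp
  | cons y L ih =>
    simp only [List.map_cons, List.sum_cons] at ih ⊢
    rw [ih, pow_add]
    ring

theorem Rep.mul {x : ℤ} {s : ℕ} (h : Rep x s) (a : ℕ) : Rep (2 ^ a * x) s := by
  obtain ⟨L, h1, h2, h3⟩ := h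
  refine ⟨L.map fun x => (x.1, x.2 + a), ?_, ?_, ?_⟩
  · rw [List.length_map]; exact h1
  · intro y hy
    obtain ⟨z, hz, rfl⟩ := List.mem_map.1 hy
    exact h2 z hz
  · rw [sum_shift, h3]

theorem rep_pow (e : ℕ) : Rep (2 ^ e) 1 := ⟨[(1, e)], by simp, by simp, by simp⟩

theorem rep_neg_one : Rep (-1) 1 := ⟨[(-1, 0)], by simp, by simp, by simp⟩

/-- numbers up to `2 ^ (2 b)` are sums of at most `b + 1` signed powers of `2` -/
theorem rep_small : ∀ (b x : ℕ), x ≤ 2 ^ (2 * b) → Rep x (b + 1)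
  | 0, x, h => by
    rw [mul_zero, pow_zero] at h
    interval_cases x
    · exact (by simpa using rep_zero.mono (Nat.zero_le 1))
    · exact (by simpa using rep_pow 0)
  | b + 1, x, h => by
    have h4 : 2 ^ (2 * (b + 1)) = 4 * 2 ^ (2 * b) := by rw [mul_add, pow_add]; ring
    rw [h4] at h
    have hx := Nat.div_add_mod x 4
    have hr : x % 4 < 4 := Nat.mod_lt _ (by norm_num)
    have key : ∀ y : ℕ, y ≤ 2 ^ (2 * b) → Rep (2 ^ 2 * (y : ℤ)) (b + 1) := fun y hy => (rep_small b y hy).mul 2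
    have h3 : x % 4 = 0 ∨ x % 4 = 1 ∨ x % 4 = 2 ∨ x % 4 = 3 := by omega
    rcases h3 with h3 | h3 | h3 | h3
    · have e : (x : ℤ) = 2 ^ 2 * ((x / 4 : ℕ) : ℤ) := by push_cast; omega
      rw [e]
      exact (key _ (by omega)).mono (by omega)
    · have e : (x : ℤ) = 2 ^ 2 * ((x / 4 : ℕ) : ℤ) + 2 ^ 0 := by push_cast; omega
      rw [e]
      exact (key _ (by omega)).add (rep_pow 0)
    · have e : (x : ℤ) = 2 ^ 2 * ((x / 4 : ℕ) : ℤ) + 2 ^ 1 := by push_cast; omega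
      rw [e]
      exact (key _ (by omega)).add (rep_pow 1)
    · have e : (x : ℤ) = 2 ^ 2 * ((x / 4 + 1 : ℕ) : ℤ) + -1 := by push_cast; omega
      rw [e]
      exact (key _ (by omega)).add rep_neg_one

/-- digits in the base `2 ^ (2 b)` -/
theorem rep_ofDigits (b : ℕ) : ∀ L : List ℕ, (∀ d ∈ L, d < 2 ^ (2 * b)) →
    Rep ((Nat.ofDigits (2 ^ (2 * b)) L : ℕ) : ℤ) ((b + 1) * (L.filter (· ≠ 0)).length)
  | [], _ => by simpa using rep_zero
  | d :: L, h => by
    have h1 := rep_ofDigits b L fun x hx => h x (List.mem_cons_of_mem _ hx)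
    have e : ((Nat.ofDigits (2 ^ (2 * b)) (d :: L) : ℕ) : ℤ) =
        2 ^ (2 * b) * ((Nat.ofDigits (2 ^ (2 * b)) L : ℕ) : ℤ) + (d : ℤ) := by
      rw [Nat.ofDigits_cons]
      push_cast
      ring
    rw [e]
    by_cases hd : d = 0
    · subst hd
      simpa using h1.mul (2 * b)
    · have h2 := (h1.mul (2 * b)).add (rep_small b d (h d List.mem_cons_self).le)
      refine h2.mono ?_
      rw [List.filter_cons_of_pos (by simpa using hd), List.length_cons]
      ring_nf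
      exact le_rfl

theorem rep_digits (b : ℕ) (hb : 1 ≤ b) (N : ℕ) :
    Rep (N : ℤ) ((b + 1) * ((Nat.digits (2 ^ (2 * b)) N).filter (· ≠ 0)).length) := by
  have h := rep_ofDigits b (Nat.digits (2 ^ (2 * b)) N) fun d hd => Nat.digits_lt_base
    (by
      calc 1 < 2 ^ 1 := by norm_num
        _ ≤ 2 ^ (2 * b) := Nat.pow_le_pow_right (by norm_num) (by omega)) hd
  rwa [Nat.ofDigits_digits] at h

/-- a representation as a family -/
theorem Rep.family {x : ℤ} {s : ℕ} (h : Rep x s) : ∃ t : ℕ, t ≤ s ∧ ∃ (σ : Fin t → ℤ) (e : Fin t → ℕ),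
    (∀ l, σ l = 1 ∨ σ l = -1) ∧ ∑ l, σ l * 2 ^ (e l) = x := by
  obtain ⟨L, h1, h2, h3⟩ := h
  refine ⟨L.length, h1, fun l => (L[l.1]).1, fun l => (L[l.1]).2, fun l => h2 _ (List.getElem_mem _), ?_⟩
  rw [← h3]
  exact Fin.sum_univ_fun_getElem L (fun a => a.1 * 2 ^ a.2)

end Pool.Agent.Run7.h878.NN
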