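import Pool.Agent.Run7.h302.FE.Fer

/-!
The theorem of helper302 (`MP_37e5fa_nt.EvenMersenneIndex`) on the numbers `2^S ± 1`, `S` even, modulo a Fermat number,
in the form of a lemma (copied, so that it can be applied to `n ^ n + 1 = F_(k + 2 ^ k)`).
-/

set_option autoImplicit false

namespace Pool.Agent.Run7.h878.NN

open Finset

/-- The sign `ε_s(k)`: it is `+1` if the least residue of `k / s` modulo `2^(m+1)` is less than
`2^m`, and `-1` otherwise. -/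
def sgn (m s k : ℕ) : ℤ :=
  if ((k : ZMod (2 ^ (m + 1))) * (s : ZMod (2 ^ (m + 1)))⁻¹).val < 2 ^ m then 1 else -1

/-- `a ≡ b` modulo `2^N` in the ring of rational numbers with odd denominator. -/
def Cong (N : ℕ) (a b : ℚ) : Prop :=
  ∃ d c : ℤ, Odd d ∧ (d : ℚ) * (a - b) = 2 ^ N * c

/-- the series `s ∑_t ε_s(2^n t) 2^(2^n t) / t` (the terms with `t > 2 m + 4` vanish modulo
`2^(m+3)`) -/
noncomputable def series (m n s : ℕ) : ℚ :=
  s * ∑ t ∈ Icc 1 (2 * m + 4), (sgn m s (2 ^ n * t) : ℚ) * (2 ^ (2 ^ n * t) / t)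

/-- the `2`-adic logarithm of the Fermat number `F_n = 1 + 2^(2^n)` (the terms with `t > 2 m + 4`
vanish modulo `2^(m+3)`) -/
noncomputable def logFermat (m n : ℕ) : ℚ :=
  ∑ t ∈ Icc 1 (2 * m + 4), (-1) ^ (t + 1) * (2 ^ (2 ^ n * t) / t)

theorem cong_x {N m n s : ℕ} {a : ℚ} :
    Cong N a (series m n s) ↔ Run7.h302.FE.Z2 N (a - Run7.h302.FE.X m n s) := Iff.rfl

theorem cong_y {N m n : ℕ} {a : ℚ} :
    Cong N a (-logFermat m n) ↔ Run7.h302.FE.Z2 N (a - Run7.h302.FE.Y m n) := by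
  have h1 : -logFermat m n = Run7.h302.FE.Y m n := by
    unfold logFermat Run7.h302.FE.Y
    rw [← sum_neg_distrib]
    refine sum_congr rfl fun t _ => ?_
    rw [Run7.h302.FE.q, pow_succ]
    ring
  rw [h1]
  exact Iff.rfl

/-- Let `m ≥ 5`, `1 ≤ n < m`, let `s` be odd and `S = 2^n s`. Write `F` for the Fermat number
`F_m`; the number `2` has order `2^(m+1)` modulo `F`.

(1) Let `n ≥ 3`. The congruence `4 E ≡ s ∑_t ε_s(2^n t) 2^(2^n t) / t` modulo `2^(m+3)` has a solution,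
and for each solution: if `F` is prime then `(2^S - 1)^((F - 1) / 2^(m+1)) = 2^E` modulo `F`, and
conversely, if this equation holds and `2^(m+1)` does not divide `E` then `F` is prime.

(2) The same holds for `A ≡ s ∑_t ε_s(2^n t) 2^(2^n t) / t` modulo `2^(m+1)` and
`(2^S - 1)^((F - 1) / 2^(m-1)) = 2^A`.

(3) Let `n ≥ 3`. The congruence `4 E ≡ -log F_n` modulo `2^(m+3)` has a solution, and for each
solution: if `F` is prime then `F_n^((F - 1) / 2^(m+1)) = 2^E` modulo `F`, and conversely if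
`2^(m+1)` does not divide `E`.

(4) The same holds for `A ≡ -log F_n` modulo `2^(m+1)` and `F_n^((F - 1) / 2^(m-1)) = 2^A`.

(5) If `2^n ≤ m + 2` then `F` is prime if and only if `(2^S - 1)^(2^(2^m + 1 - 2^n)) = -1` modulo
`F`, and if and only if `(2^S + 1)^(2^(2^m + 1 - 2^n)) = -1` modulo `F`. For `s = 1` the base is
`F_n`.

(6) If `2^n ≥ m + 3` and `F` is prime then `(2^S - 1)^((F - 1) / 2^(m+1)) = 1` and
`(2^S + 1)^((F - 1) / 2^(m+1)) = 1` modulo `F`. -/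
theorem even_index (m n s : ℕ) (hm : 5 ≤ m) (hn : 1 ≤ n) (hnm : n < m) (hs : Odd s) :
    (3 ≤ n → (∃ E : ℕ, Cong (m + 3) (4 * E) (series m n s)) ∧
      ∀ E : ℕ, Cong (m + 3) (4 * E) (series m n s) →
        ((Nat.fermatNumber m).Prime → ((2 ^ (2 ^ n * s) - 1 : ℕ) : ZMod (Nat.fermatNumber m)) ^
          ((Nat.fermatNumber m - 1) / 2 ^ (m + 1)) = 2 ^ E) ∧
        (¬ 2 ^ (m + 1) ∣ E → ((2 ^ (2 ^ n * s) - 1 : ℕ) : ZMod (Nat.fermatNumber m)) ^
          ((Nat.fermatNumber m - 1) / 2 ^ (m + 1)) = 2 ^ E → (Nat.fermatNumber m).Prime)) ∧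
    ((∃ A : ℕ, Cong (m + 1) A (series m n s)) ∧
      ∀ A : ℕ, Cong (m + 1) A (series m n s) →
        ((Nat.fermatNumber m).Prime → ((2 ^ (2 ^ n * s) - 1 : ℕ) : ZMod (Nat.fermatNumber m)) ^
          ((Nat.fermatNumber m - 1) / 2 ^ (m - 1)) = 2 ^ A) ∧
        (¬ 2 ^ (m + 1) ∣ A → ((2 ^ (2 ^ n * s) - 1 : ℕ) : ZMod (Nat.fermatNumber m)) ^
          ((Nat.fermatNumber m - 1) / 2 ^ (m - 1)) = 2 ^ A → (Nat.fermatNumber m).Prime)) ∧
    (3 ≤ n → (∃ E : ℕ, Cong (m + 3) (4 * E) (-logFermat m n)) ∧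
      ∀ E : ℕ, Cong (m + 3) (4 * E) (-logFermat m n) →
        ((Nat.fermatNumber m).Prime → (Nat.fermatNumber n : ZMod (Nat.fermatNumber m)) ^
          ((Nat.fermatNumber m - 1) / 2 ^ (m + 1)) = 2 ^ E) ∧
        (¬ 2 ^ (m + 1) ∣ E → (Nat.fermatNumber n : ZMod (Nat.fermatNumber m)) ^
          ((Nat.fermatNumber m - 1) / 2 ^ (m + 1)) = 2 ^ E → (Nat.fermatNumber m).Prime)) ∧
    ((∃ A : ℕ, Cong (m + 1) A (-logFermat m n)) ∧
      ∀ A : ℕ, Cong (m + 1) A (-logFermat m n) →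
        ((Nat.fermatNumber m).Prime → (Nat.fermatNumber n : ZMod (Nat.fermatNumber m)) ^
          ((Nat.fermatNumber m - 1) / 2 ^ (m - 1)) = 2 ^ A) ∧
        (¬ 2 ^ (m + 1) ∣ A → (Nat.fermatNumber n : ZMod (Nat.fermatNumber m)) ^
          ((Nat.fermatNumber m - 1) / 2 ^ (m - 1)) = 2 ^ A → (Nat.fermatNumber m).Prime)) ∧
    (2 ^ n ≤ m + 2 →
      ((Nat.fermatNumber m).Prime ↔ ((2 ^ (2 ^ n * s) - 1 : ℕ) : ZMod (Nat.fermatNumber m)) ^
        (2 ^ (2 ^ m + 1 - 2 ^ n)) = -1) ∧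
      ((Nat.fermatNumber m).Prime ↔ ((2 ^ (2 ^ n * s) + 1 : ℕ) : ZMod (Nat.fermatNumber m)) ^
        (2 ^ (2 ^ m + 1 - 2 ^ n)) = -1)) ∧
    (m + 3 ≤ 2 ^ n → (Nat.fermatNumber m).Prime →
      ((2 ^ (2 ^ n * s) - 1 : ℕ) : ZMod (Nat.fermatNumber m)) ^
        ((Nat.fermatNumber m - 1) / 2 ^ (m + 1)) = 1 ∧
      ((2 ^ (2 ^ n * s) + 1 : ℕ) : ZMod (Nat.fermatNumber m)) ^
        ((Nat.fermatNumber m - 1) / 2 ^ (m + 1)) = 1) := by
  have hbig : ∀ m : ℕ, 4 ≤ m → m + 1 < 2 ^ m := by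
    intro m hm
    induction m, hm using Nat.le_induction with
    | base => norm_num
    | succ e he ih => rw [pow_succ]; omega
  have hb := hbig m (by omega)
  have hexp : (Nat.fermatNumber m - 1) / 2 ^ (m + 1) = Run7.h302.FE.T m := by
    unfold Nat.fermatNumber Run7.h302.FE.T
    rw [Nat.add_sub_cancel, Nat.pow_div (by omega) (by norm_num)]
  have hexp4 : (Nat.fermatNumber m - 1) / 2 ^ (m - 1) = 4 * Run7.h302.FE.T m := by
    unfold Nat.fermatNumber Run7.h302.FE.T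
    rw [Nat.add_sub_cancel, Nat.pow_div (by omega) (by norm_num)]
    have h1 : 2 ^ m - (m - 1) = 2 + (2 ^ m - (m + 1)) := by omega
    rw [h1, pow_add]
    norm_num
  have hcast : ∀ S : ℕ, ((2 ^ S - 1 : ℕ) : ZMod (Nat.fermatNumber m)) = 2 ^ S - 1 := by
    intro S
    rw [Nat.cast_sub Nat.one_le_two_pow]
    push_cast
    ring
  have hcast' : ∀ S : ℕ, ((2 ^ S + 1 : ℕ) : ZMod (Nat.fermatNumber m)) = 2 ^ S + 1 := by
    intro S
    push_cast
    ring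
  have hTe := Run7.h302.FE.T_even (m := m) (by omega)
  have hs' : Odd (s + 2 ^ (m - n)) := Run7.h302.FE.odd_shift hs hnm
  have h1' : Odd (1 + 2 ^ (m - n)) := Run7.h302.FE.odd_shift odd_one hnm
  rw [hexp, hexp4]
  refine ⟨fun hn3 => ⟨?_, fun E hE => ⟨fun hF => ?_, fun hd h => ?_⟩⟩,
    ⟨?_, fun A hA => ⟨fun hF => ?_, fun hd h => ?_⟩⟩,
    fun hn3 => ⟨?_, fun E hE => ⟨fun hF => ?_, fun hd h => ?_⟩⟩,
    ⟨?_, fun A hA => ⟨fun hF => ?_, fun hd h => ?_⟩⟩,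
    fun h2n => ⟨⟨fun hF => ?_, fun h => Run7.h302.FE.pepin_bwd hm h2n h⟩,
      ⟨fun hF => ?_, fun h => Run7.h302.FE.pepin_bwd hm h2n h⟩⟩, fun h2n hF => ⟨?_, ?_⟩⟩
  · obtain ⟨E, hE⟩ := Run7.h302.FE.exists_ind3 hm hn3 hnm.le hs
    exact ⟨E, cong_x.2 hE⟩
  · rw [hcast]
    exact Run7.h302.FE.index_three hm hn3 hnm.le hs (cong_x.1 hE) hF
  · exact Run7.h302.FE.prime_of (by omega) (b := 2 ^ (2 ^ n * s) - 1) (k := 1) hd (by
      rw [one_mul]
      exact h)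
  · obtain ⟨A, hA⟩ := Run7.h302.FE.exists_ind1 (m := m) (by omega) hnm.le hs
    exact ⟨A, cong_x.2 hA⟩
  · rw [hcast]
    exact Run7.h302.FE.index_one (by omega) hnm.le hs (cong_x.1 hA) hF
  · exact Run7.h302.FE.prime_of (by omega) (b := 2 ^ (2 ^ n * s) - 1) (k := 4) hd h
  · obtain ⟨E, hE⟩ := Run7.h302.FE.exists_ind3 hm hn3 hnm.le h1'
    exact ⟨E, cong_y.2 ((Run7.h302.FE.indF3_iff (by omega) hn3 hnm).2 hE)⟩
  · have h3 := (Run7.h302.FE.indF3_iff (by omega) hn3 hnm).1 (cong_y.1 hE)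
    rw [Run7.h302.FE.fermat_cast, Run7.h302.FE.plus_pow hnm.le hTe]
    exact Run7.h302.FE.index_three hm hn3 hnm.le h1' h3 hF
  · exact Run7.h302.FE.prime_of (by omega) (b := Nat.fermatNumber n) (k := 1) hd (by
      rw [one_mul]
      exact h)
  · obtain ⟨A, hA⟩ := Run7.h302.FE.exists_ind1 (m := m) (by omega) hnm.le h1'
    exact ⟨A, cong_y.2 ((Run7.h302.FE.indF1_iff (by omega) hn hnm).2 hA)⟩
  · have h3 := (Run7.h302.FE.indF1_iff (by omega) hn hnm).1 (cong_y.1 hA)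
    rw [Run7.h302.FE.fermat_cast, Run7.h302.FE.plus_pow hnm.le (hTe.mul_left 4)]
    exact Run7.h302.FE.index_one (by omega) hnm.le h1' h3 hF
  · exact Run7.h302.FE.prime_of (by omega) (b := Nat.fermatNumber n) (k := 4) hd h
  · rw [hcast]
    exact Run7.h302.FE.pepin_fwd hm hn h2n hnm.le hs hF
  · rw [hcast', Run7.h302.FE.plus_pow hnm.le
      (Even.pow_of_ne_zero even_two (by omega))]
    exact Run7.h302.FE.pepin_fwd hm hn h2n hnm.le hs' hF
  · rw [hcast]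
    exact Run7.h302.FE.residue hm h2n hnm.le hs hF
  · rw [hcast', Run7.h302.FE.plus_pow hnm.le hTe]
    exact Run7.h302.FE.residue hm h2n hnm.le hs' hF

end Pool.Agent.Run7.h878.NN
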